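import Pool.Agent.N126.IS.Stm

/-!
# Project IS, part CNT (helper738)
-/

set_option autoImplicit false

open Pool.Agent.W602.GT MvPolynomial Pool.Agent.N126.IS

namespace Pool.Agent.N738.IS

/-- counting generators of a field containing an algebraically independent family -/
theorem count {k0 k ι : Type} [Field k0] [Field k] [Algebra k0 k] [Fintype ι] (x : ι → k)
    (hx : AlgebraicIndependent k0 x) (T : Finset k)
    (h : ∀ i, x i ∈ IntermediateField.adjoin k0 (T : Set k)) : Fintype.card ι ≤ T.card := by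
  classical
  have h1 : (AlgebraicIndependent.matroid k0 k).Indep (Set.range x) :=
    AlgebraicIndependent.matroid_indep_iff.mpr hx.to_subtype_range
  have h2 : Set.range x ⊆ (AlgebraicIndependent.matroid k0 k).closure (T : Set k) := by
    rintro _ ⟨i, rfl⟩
    rw [AlgebraicIndependent.matroid_closure_eq, SetLike.mem_coe]
    obtain ⟨r, hr, s, hs, hrs⟩ := IntermediateField.mem_adjoin_iff_div.mp (h i)
    rw [hrs, div_eq_mul_inv]
    exact (isAlgebraic_algebraMap (⟨r, hr⟩ : Algebra.adjoin k0 (T : Set k))).mul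
      (isAlgebraic_algebraMap (⟨s, hs⟩ : Algebra.adjoin k0 (T : Set k))).inv
  have h3 := h1.encard_le_eRk_of_subset h2
  rw [Matroid.eRk_closure_eq] at h3
  have h4 := h3.trans (Matroid.eRk_le_encard _ _)
  rw [Set.encard_coe_eq_coe_finsetCard, ← Set.image_univ,
    hx.injective.encard_image, Set.encard_univ, ENat.card_eq_coe_fintype_card] at h4
  exact_mod_cast h4

/-- a nonzero maximal minor -/
theorem select {k : Type} [Field k] {p : ℕ} {I : Type} [Fintype I]
    (v : Fin p → I → k) (hv : LinearIndependent k v) :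
    ∃ f : Fin p → I, Function.Injective f ∧
      IsUnit (Matrix.of fun (a' a : Fin p) => v a' (f a)) := by
  classical
  set M : Matrix (Fin p) I k := Matrix.of v with hM
  have h1 : M.rank = p := by
    have : LinearIndependent k M.row := hv
    simpa using this.rank_matrix
  obtain ⟨κ, a, ha, hspan, hli⟩ := exists_linearIndependent' k M.col
  rw [Matrix.rank_eq_finrank_span_cols, ← hspan] at h1
  have : Finite κ := Finite.of_injective a ha
  have : Fintype κ := Fintype.ofFinite κ
  have h2 := linearIndependent_iff_card_eq_finrank_span.mp hli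
  rw [Set.finrank, h1] at h2
  let e : Fin p ≃ κ := (Fintype.equivFinOfCardEq h2).symm
  refine ⟨a ∘ e, ha.comp e.injective, ?_⟩
  rw [← Matrix.linearIndependent_cols_iff_isUnit]
  have h3 := hli.comp e e.injective
  exact h3

/-- solving for `p` of the unknowns -/
theorem elim {k0 k : Type} [Field k0] [Field k] [Algebra k0 k] (E : IntermediateField k0 k)
    {p : ℕ} {I : Type} [Fintype I] [DecidableEq I] (v : Fin p → I → k) (hvE : ∀ a i, v a i ∈ E)
    (f : Fin p → I) (hf : Function.Injective f)
    (hdet : IsUnit (Matrix.of fun (a' a : Fin p) => v a' (f a)))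
    (b : I → k) (hb : ∀ i, i ∉ Finset.univ.image f → b i ∈ E)
    (h : ∀ a, ∑ i, b i * v a i = 0) : ∀ i, b i ∈ E := by
  classical
  set M : Matrix (Fin p) (Fin p) k := Matrix.of fun (a' a : Fin p) => v a' (f a) with hM
  let ME : Matrix (Fin p) (Fin p) E := Matrix.of fun (a' a : Fin p) => ⟨v a' (f a), hvE _ _⟩
  have hMM : M = ME.map (algebraMap E k) := by
    ext a' a; rfl
  have hdE : IsUnit ME.det := by
    rw [isUnit_iff_ne_zero]
    intro h0
    have h1 : M.det = algebraMap E k ME.det := by
      rw [hMM, RingHom.map_det]; rfl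
    rw [h0, map_zero] at h1
    exact ((Matrix.isUnit_iff_isUnit_det M).mp hdet).ne_zero h1
  have hinv : (ME⁻¹).map (algebraMap E k) * M = 1 := by
    rw [hMM, ← Matrix.map_mul, Matrix.nonsing_inv_mul _ hdE]
    exact Matrix.map_one _ (map_zero _) (map_one _)
  let bf : Fin p → k := fun a => b (f a)
  have hr : ∀ a', (M.mulVec bf) a' ∈ E := by
    intro a'
    have h1 : (M.mulVec bf) a' = ∑ i ∈ Finset.univ.image f, b i * v a' i := by
      rw [Finset.sum_image (fun x _ y _ hxy => hf hxy)]
      simp only [Matrix.mulVec, dotProduct, hM, Matrix.of_apply, bf]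
      exact Finset.sum_congr rfl fun a _ => mul_comm _ _
    have h2 := h a'
    rw [← Finset.sum_add_sum_compl (Finset.univ.image f)] at h2
    rw [h1, eq_neg_of_add_eq_zero_left h2]
    refine neg_mem (sum_mem fun i hi => mul_mem (hb i ?_) (hvE _ _))
    exact Finset.mem_compl.mp hi
  have hbf : ∀ a, bf a ∈ E := by
    intro a
    have h1 : bf = ((ME⁻¹).map (algebraMap E k)).mulVec (M.mulVec bf) := by
      rw [Matrix.mulVec_mulVec, hinv, Matrix.one_mulVec]
    rw [h1]
    simp only [Matrix.mulVec, dotProduct]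
    exact sum_mem fun a' _ => mul_mem (SetLike.coe_mem (ME⁻¹ a a')) (hr a')
  intro i
  by_cases hi : i ∈ Finset.univ.image f
  · obtain ⟨a, _, rfl⟩ := Finset.mem_image.mp hi
    exact hbf a
  · exact hb i hi

theorem finite_mon (n D : ℕ) : Finite (Mon n D) := by
  classical
  refine Set.Finite.to_subtype (s := {I : Fin (n + 1) →₀ ℕ | I.degree = D}) ?_
  refine Set.Finite.subset (Finset.finsuppAntidiag Finset.univ D).finite_toSet ?_
  intro I hI
  rw [Finset.mem_coe, Finset.mem_finsuppAntidiag]
  refine ⟨?_, by simp⟩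
  rw [Set.mem_ofPred_eq, Finsupp.degree_eq_sum] at hI
  exact hI

theorem eval_form {k : Type} [Field k] {n D : ℕ} [Fintype (Mon n D)]
    (H : MvPolynomial (Fin (n + 1)) k) (hH : H.IsHomogeneous D) (x : Fin (n + 1) → k) :
    eval x H = ∑ I : Mon n D, H.coeff I.1 * ∏ i, x i ^ I.1 i := by
  classical
  rw [eval_eq']
  have h1 : H.support ⊆ (Finset.univ : Finset (Mon n D)).map ⟨Subtype.val, Subtype.val_injective⟩ := by
    intro d hd
    rw [Finset.mem_map]
    refine ⟨⟨d, ?_⟩, Finset.mem_univ _, rfl⟩
    by_contra hne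
    exact (mem_support_iff.mp hd) (hH.coeff_eq_zero hne)
  rw [Finset.sum_subset h1, Finset.sum_map]
  · rfl
  · intro d _ hd
    rw [notMem_support_iff.mp hd, zero_mul]

theorem indep {k : Type} [Field k] {n D m : ℕ} (hD : m ≤ D)
    (q : Fin (m + 1) → Fin (n + 1) → k) (h0 : ∀ a, q a ≠ 0)
    (hne : ∀ a b, a ≠ b → ∀ t : k, q a ≠ t • q b) [Fintype (Mon n D)] :
    LinearIndependent k (fun a (I : Mon n D) => ∏ i, q a i ^ I.1 i) := by
  classical
  -- linear forms
  have hl : ∀ a b, a ≠ b → ∃ l : MvPolynomial (Fin (n + 1)) k, l.IsHomogeneous 1 ∧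
      eval (q b) l = 0 ∧ eval (q a) l ≠ 0 := by
    intro a b hab
    obtain ⟨i, hi⟩ : ∃ i, q b i ≠ 0 := by
      by_contra hcon
      push Not at hcon
      exact h0 b (funext hcon)
    have : ∃ i', q b i * q a i' - q b i' * q a i ≠ 0 := by
      by_contra hcon
      push Not at hcon
      refine hne a b hab (q a i / q b i) (funext fun i' => ?_)
      have h1 := hcon i'
      simp only [Pi.smul_apply, smul_eq_mul]
      field_simp
      linear_combination h1
    obtain ⟨i', hi'⟩ := this
    refine ⟨C (q b i) * X i' - C (q b i') * X i, ?_, ?_, ?_⟩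
    · exact (isHomogeneous_C_mul_X _ _).sub (isHomogeneous_C_mul_X _ _)
    · simp; ring
    · simpa using hi'
  choose! l hl1 hl2 hl3 using hl
  have hH : ∀ a, ∃ H : MvPolynomial (Fin (n + 1)) k, H.IsHomogeneous D ∧
      (∀ b, b ≠ a → eval (q b) H = 0) ∧ eval (q a) H ≠ 0 := by
    intro a
    obtain ⟨i, hi⟩ : ∃ i, q a i ≠ 0 := by
      by_contra hcon
      push Not at hcon
      exact h0 a (funext hcon)
    refine ⟨(∏ b ∈ Finset.univ.erase a, l a b) * X i ^ (D - m), ?_, ?_, ?_⟩
    · have h1 : (∏ b ∈ Finset.univ.erase a, l a b).IsHomogeneous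
          (∑ b ∈ (Finset.univ.erase a : Finset (Fin (m + 1))), 1) :=
        IsHomogeneous.prod _ _ _ fun b hb => hl1 a b (Finset.ne_of_mem_erase hb).symm
      have h2 := h1.mul (isHomogeneous_X_pow (R := k) i (D - m))
      have h3 : ∑ b ∈ (Finset.univ.erase a : Finset (Fin (m + 1))), 1 = m := by simp
      rw [h3, Nat.add_sub_cancel' hD] at h2
      exact h2
    · intro b hb
      rw [map_mul, map_prod, Finset.prod_eq_zero (Finset.mem_erase.mpr ⟨hb, Finset.mem_univ _⟩)
        (hl2 a b hb.symm), zero_mul]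
    · rw [map_mul, map_prod, map_pow, eval_X]
      refine mul_ne_zero (Finset.prod_ne_zero_iff.mpr fun b hb => ?_) (pow_ne_zero _ hi)
      exact hl3 a b (Finset.ne_of_mem_erase hb).symm
  rw [Fintype.linearIndependent_iff]
  intro g hg a
  obtain ⟨H, hH1, hH2, hH3⟩ := hH a
  have h1 : ∑ I : Mon n D, H.coeff I.1 * (∑ b, g b • fun I : Mon n D => ∏ i, q b i ^ I.1 i) I = 0 := by
    rw [hg]; simp
  have h2 : ∑ I : Mon n D, H.coeff I.1 * (∑ b, g b • fun I : Mon n D => ∏ i, q b i ^ I.1 i) I =
      ∑ b, g b * eval (q b) H := by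
    simp only [Finset.sum_apply, Pi.smul_apply, smul_eq_mul, Finset.mul_sum]
    rw [Finset.sum_comm]
    refine Finset.sum_congr rfl fun b _ => ?_
    rw [eval_form H hH1, Finset.mul_sum]
    exact Finset.sum_congr rfl fun I _ => by ring
  rw [h2, Finset.sum_eq_single a (fun b _ hb => by rw [hH2 b hb, mul_zero])
    (fun h => absurd (Finset.mem_univ a) h)] at h1
  exact (mul_eq_zero.mp h1).resolve_right hH3

theorem main_CNT : S_CNT := by
  classical
  intro k0 k _ _ _ _ n D hD B hB hind μ c hμ hc hcc hall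
  have := finite_mon n D
  have : Fintype (Mon n D) := Fintype.ofFinite _
  have hia : ∀ a, ∃ i, c a i ≠ 0 := by
    intro a
    by_contra hcon
    push Not at hcon
    exact hc a (funext hcon)
  choose ia hia using hia
  let c' : Fin (2 * n + 1) → Fin (n + 1) → k := fun a i => c a i / c a (ia a)
  let μ' : Fin (2 * n + 1) → Fin (n + 1) → k := fun j i => μ j i / μ j 0
  let q : Fin (2 * n + 1) → Fin (2 * n + 1) → Fin (n + 1) → k := fun j a i => μ' j i * c' a i
  have hμ' : ∀ j i, μ' j i ≠ 0 := fun j i => div_ne_zero (hμ j i) (hμ j 0)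
  have hq0 : ∀ j a, q j a ≠ 0 := by
    intro j a h
    have h1 := congrFun h (ia a)
    simp only [q, c', Pi.zero_apply, div_self (hia a), mul_one] at h1
    exact hμ' j _ h1
  have hqq : ∀ j a b, a ≠ b → ∀ t : k, q j a ≠ t • q j b := by
    intro j a b hab t h
    refine hcc a b hab (t * c a (ia a) / c b (ia b)) (funext fun i => ?_)
    have h1 := congrFun h i
    simp only [q, c', Pi.smul_apply, smul_eq_mul] at h1 ⊢
    have h2 : c a i / c a (ia a) = t * (c b i / c b (ia b)) :=
      mul_left_cancel₀ (hμ' j i) (by linear_combination h1)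
    rw [div_eq_iff (hia a)] at h2
    rw [h2]; ring
  have heq : ∀ j a, ∑ I : Mon n D, (B j).coeff I.1 * ∏ i, q j a i ^ I.1 i = 0 := by
    intro j a
    have h1 := hall j a
    rw [eval_form (B j) (hB j)] at h1
    have h2 : ∀ I : Mon n D, ∏ i, q j a i ^ I.1 i =
        (1 / (μ j 0 * c a (ia a))) ^ D * ∏ i, (μ j i * c a i) ^ I.1 i := by
      intro I
      have h3 : (1 / (μ j 0 * c a (ia a))) ^ D = ∏ i, (1 / (μ j 0 * c a (ia a))) ^ I.1 i := by
        rw [Finset.prod_pow_eq_pow_sum, ← Finsupp.degree_eq_sum, I.2]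
      rw [h3, ← Finset.prod_mul_distrib]
      refine Finset.prod_congr rfl fun i _ => ?_
      rw [← mul_pow]
      congr 1
      simp only [q, μ', c']
      have e1 := hμ j 0
      have e2 := hia a
      field_simp
    calc ∑ I : Mon n D, (B j).coeff I.1 * ∏ i, q j a i ^ I.1 i
        = (1 / (μ j 0 * c a (ia a))) ^ D *
            ∑ I : Mon n D, (B j).coeff I.1 * ∏ i, (μ j i * c a i) ^ I.1 i := by
          rw [Finset.mul_sum]
          exact Finset.sum_congr rfl fun I _ => by rw [h2 I]; ring
      _ = 0 := by rw [h1, mul_zero]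
  have hsel : ∀ j, ∃ f : Fin (2 * n + 1) → Mon n D, Function.Injective f ∧
      IsUnit (Matrix.of fun (a' a : Fin (2 * n + 1)) => ∏ i, q j a' i ^ (f a).1 i) := fun j =>
    select (fun a (I : Mon n D) => ∏ i, q j a i ^ I.1 i) (indep hD (q j) (hq0 j) (hqq j))
  choose f hf1 hf2 using hsel
  let T1 : Finset k := Finset.univ.biUnion fun a => (Finset.univ.erase (ia a)).image (c' a)
  let T2 : Finset k := Finset.univ.biUnion fun j : Fin (2 * n + 1) =>
    ((Finset.univ : Finset (Fin (n + 1))).erase 0).image (μ' j)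
  let T3 : Finset k := Finset.univ.biUnion fun j =>
    (Finset.univ \ Finset.univ.image (f j)).image (fun I => (B j).coeff I.1)
  have hT1 : T1.card ≤ (2 * n + 1) * n := by
    have h := Finset.card_biUnion_le_card_mul (Finset.univ : Finset (Fin (2 * n + 1)))
      (fun a => (Finset.univ.erase (ia a)).image (c' a)) n
      (fun a _ => Finset.card_image_le.trans (by simp))
    simpa using h
  have hT2 : T2.card ≤ (2 * n + 1) * n := by
    have h := Finset.card_biUnion_le_card_mul (Finset.univ : Finset (Fin (2 * n + 1)))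
      (fun j => ((Finset.univ : Finset (Fin (n + 1))).erase 0).image (μ' j)) n
      (fun a _ => Finset.card_image_le.trans (by simp))
    simpa using h
  have hcf : ∀ j, (Finset.univ.image (f j)).card = 2 * n + 1 := by
    intro j
    rw [Finset.card_image_of_injective _ (hf1 j)]; simp
  have hT3 : T3.card ≤ (2 * n + 1) * (Fintype.card (Mon n D) - (2 * n + 1)) := by
    have h := Finset.card_biUnion_le_card_mul (Finset.univ : Finset (Fin (2 * n + 1)))
      (fun j => (Finset.univ \ Finset.univ.image (f j)).image (fun I => (B j).coeff I.1))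
      (Fintype.card (Mon n D) - (2 * n + 1))
      (fun j _ => Finset.card_image_le.trans (by
        rw [Finset.card_sdiff_of_subset (Finset.subset_univ _), hcf j, Finset.card_univ]))
    simpa using h
  have hN : 2 * n + 1 ≤ Fintype.card (Mon n D) := by
    rw [← hcf 0]; exact Finset.card_le_univ _
  let T : Finset k := T1 ∪ T2 ∪ T3
  let E := IntermediateField.adjoin k0 (T : Set k)
  have hTE : ∀ x ∈ T, x ∈ E := fun x hx => IntermediateField.subset_adjoin _ _ hx
  have hcE : ∀ a i, c' a i ∈ E := by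
    intro a i
    by_cases hi : i = ia a
    · subst hi
      have : c' a (ia a) = 1 := div_self (hia a)
      rw [this]; exact one_mem _
    · refine hTE _ (Finset.mem_union_left _ (Finset.mem_union_left _ ?_))
      exact Finset.mem_biUnion.mpr ⟨a, Finset.mem_univ _, Finset.mem_image.mpr
        ⟨i, Finset.mem_erase.mpr ⟨hi, Finset.mem_univ _⟩, rfl⟩⟩
  have hμE : ∀ j i, μ' j i ∈ E := by
    intro j i
    by_cases hi : i = 0
    · subst hi
      have : μ' j 0 = 1 := div_self (hμ j 0)
      rw [this]; exact one_mem _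
    · refine hTE _ (Finset.mem_union_left _ (Finset.mem_union_right _ ?_))
      exact Finset.mem_biUnion.mpr ⟨j, Finset.mem_univ _, Finset.mem_image.mpr
        ⟨i, Finset.mem_erase.mpr ⟨hi, Finset.mem_univ _⟩, rfl⟩⟩
  have hbE : ∀ j (I : Mon n D), (B j).coeff I.1 ∈ E := by
    intro j
    refine elim E (fun a (I : Mon n D) => ∏ i, q j a i ^ I.1 i) ?_ (f j) (hf1 j) (hf2 j)
      (fun I => (B j).coeff I.1) ?_ (heq j)
    · intro a I
      exact prod_mem fun i _ => pow_mem (mul_mem (hμE j i) (hcE a i)) _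
    · intro I hI
      refine hTE _ (Finset.mem_union_right _ ?_)
      exact Finset.mem_biUnion.mpr ⟨j, Finset.mem_univ _, Finset.mem_image.mpr
        ⟨I, Finset.mem_sdiff.mpr ⟨Finset.mem_univ _, hI⟩, rfl⟩⟩
  have hcount := count _ hind T (fun p => hbE p.1 p.2)
  have hTc : T.card ≤ (2 * n + 1) * n + (2 * n + 1) * n +
      (2 * n + 1) * (Fintype.card (Mon n D) - (2 * n + 1)) := by
    refine (Finset.card_union_le _ _).trans (Nat.add_le_add ?_ hT3)
    exact (Finset.card_union_le _ _).trans (Nat.add_le_add hT1 hT2)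
  rw [Fintype.card_prod, Fintype.card_fin] at hcount
  obtain ⟨N', hN'⟩ := Nat.exists_eq_add_of_le hN
  rw [hN'] at hcount hTc
  rw [Nat.add_sub_cancel_left] at hTc
  nlinarith [hcount.trans hTc]

end Pool.Agent.N738.IS
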